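import Pool.Agent.Helper84.BT.Goals

/-!
# Packet BT-NUM: the numerical inequality
-/

set_option autoImplicit false

namespace Pool.Agent.Helper20.BT.NUM

open Pool.Agent.Helper84.BT

theorem poly (u : ℕ) (hu : 3 ≤ u) : 6 * 45 ^ 2 * 702 ^ 5 * u ^ 12 ≤ 8 ^ (9 * u) := by
  induction u, hu using Nat.le_induction with
  | base => norm_num
  | succ u hu ih =>
    have h1 : (u + 1) ^ 12 ≤ 8 ^ 9 * u ^ 12 := by
      calc (u + 1) ^ 12 ≤ (2 * u) ^ 12 := Nat.pow_le_pow_left (by omega) 12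
        _ = 2 ^ 12 * u ^ 12 := mul_pow _ _ _
        _ ≤ 8 ^ 9 * u ^ 12 := Nat.mul_le_mul_right _ (by norm_num)
    calc 6 * 45 ^ 2 * 702 ^ 5 * (u + 1) ^ 12 ≤ 6 * 45 ^ 2 * 702 ^ 5 * (8 ^ 9 * u ^ 12) :=
          Nat.mul_le_mul_left _ h1
      _ = 8 ^ 9 * (6 * 45 ^ 2 * 702 ^ 5 * u ^ 12) := by ring
      _ ≤ 8 ^ 9 * 8 ^ (9 * u) := Nat.mul_le_mul_left _ ih
      _ = 8 ^ (9 * (u + 1)) := by rw [← pow_add]; congr 1; ring

theorem t : S_NUM := by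
  intro u t p q hu h1 h2 hp hq
  have hr : 8 ≤ 4 * p := by omega
  have hr0 : 0 < 4 * p := by omega
  generalize 4 * p = r at hq hr hr0 ⊢
  have hq0 : 0 < q := lt_of_lt_of_le (pow_pos hr0 _) hq
  have hr1 : 1 ≤ r := hr0
  -- the three factors
  have a1 : 6 * (t + 12 * u + 1) ^ 2 * ((12 * u + 1) * (t + 22 * u)) ^ 5 ≤ r ^ (9 * u) := by
    calc 6 * (t + 12 * u + 1) ^ 2 * ((12 * u + 1) * (t + 22 * u)) ^ 5
        ≤ 6 * (45 * u) ^ 2 * ((13 * u) * (54 * u)) ^ 5 := by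
          refine Nat.mul_le_mul (Nat.mul_le_mul_left _ (Nat.pow_le_pow_left (by omega) 2)) ?_
          exact Nat.pow_le_pow_left (Nat.mul_le_mul (by omega) (by omega)) 5
      _ = 6 * 45 ^ 2 * 702 ^ 5 * u ^ 12 := by ring
      _ ≤ 8 ^ (9 * u) := poly u hu
      _ ≤ r ^ (9 * u) := Nat.pow_le_pow_left hr _
  have a2 : 2 ^ (t + 12 * u) * 4 ^ (2 * u + 3) ≤ r ^ (17 * u) := by
    calc 2 ^ (t + 12 * u) * 4 ^ (2 * u + 3) = 2 ^ (t + 12 * u + 2 * (2 * u + 3)) := by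
          have e0 : (4 : ℕ) ^ (2 * u + 3) = 2 ^ (2 * (2 * u + 3)) := by
            rw [pow_mul 2 2 (2 * u + 3)]
            norm_num
          rw [e0, ← pow_add]
      _ ≤ 2 ^ (3 * (17 * u)) := Nat.pow_le_pow_right (by norm_num) (by omega)
      _ = 8 ^ (17 * u) := by rw [pow_mul]; norm_num
      _ ≤ r ^ (17 * u) := Nat.pow_le_pow_left hr _
  have a3 : (r ^ (t + 22 * u)) ^ 5 * r ^ (t + 12 * u) ≤ r ^ (314 * u) := by
    rw [← pow_mul, ← pow_add]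
    exact Nat.pow_le_pow_right hr1 (by omega)
  have a4 : r ^ (9 * u) * r ^ (17 * u) * r ^ (314 * u) < q ^ (6 * u - 6) := by
    calc r ^ (9 * u) * r ^ (17 * u) * r ^ (314 * u) = r ^ (9 * u + 17 * u + 314 * u) := by
          rw [← pow_add, ← pow_add]
      _ < r ^ (100 * (6 * u - 6)) := Nat.pow_lt_pow_right (by omega) (by omega)
      _ = (r ^ 100) ^ (6 * u - 6) := pow_mul _ _ _
      _ ≤ q ^ (6 * u - 6) := Nat.pow_le_pow_left hq _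
  have e1 : q ^ (t + 22 * u) = q ^ (6 * u - 6) * (q ^ (t + 12 * u) * q ^ (2 * (2 * u + 3))) := by
    rw [← pow_add, ← pow_add]
    congr 1
    omega
  have e2 : 6 * (t + 12 * u + 1) ^ 2 * ((12 * u + 1) * (t + 22 * u) * r ^ (t + 22 * u)) ^ 5 *
      r ^ (t + 12 * u) * (2 * q) ^ (t + 12 * u) * 4 ^ (2 * u + 3) * q ^ (2 * (2 * u + 3))
      = (6 * (t + 12 * u + 1) ^ 2 * ((12 * u + 1) * (t + 22 * u)) ^ 5) *
        (2 ^ (t + 12 * u) * 4 ^ (2 * u + 3)) * ((r ^ (t + 22 * u)) ^ 5 * r ^ (t + 12 * u)) *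
        (q ^ (t + 12 * u) * q ^ (2 * (2 * u + 3))) := by
    rw [mul_pow ((12 * u + 1) * (t + 22 * u)) (r ^ (t + 22 * u)) 5, mul_pow 2 q (t + 12 * u)]
    ring
  rw [e1, e2]
  refine Nat.mul_lt_mul_of_pos_right ?_ (Nat.mul_pos (pow_pos hq0 _) (pow_pos hq0 _))
  refine lt_of_le_of_lt ?_ a4
  exact Nat.mul_le_mul (Nat.mul_le_mul a1 a2) a3

end Pool.Agent.Helper20.BT.NUM
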